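import Pool.Agent.H354.ME.TailCore

/-! Project UE of helper121, S_aprA: the computation (helper946). -/

set_option autoImplicit false

open scoped ENNReal
open MeasureTheory Set

namespace Pool.Agent.H946.UE

lemma rpow_le_max {x s : ℝ} (hx : 0 < x) (hs : 0 < s) (hs1 : s < 1) : x ^ s ≤ max 1 x := by
  rcases le_total x 1 with h | h
  · exact (Real.rpow_le_one hx.le h hs.le).trans (le_max_left _ _)
  · calc x ^ s ≤ x ^ (1 : ℝ) := Real.rpow_le_rpow_of_exponent_le h hs1.le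
      _ = x := Real.rpow_one _
      _ ≤ max 1 x := le_max_right _ _

/-- one variable -/
lemma one_var (D lam s : ℝ) (hD : 0 < D) (hl : 0 < lam) (hs : 1 / 2 ≤ s) (hs1 : s < 1)
    (μ : Measure ℝ) [IsProbabilityMeasure μ]
    (hμ : ∀ A : Set ℝ, MeasurableSet A → μ A ≤ ENNReal.ofReal D * volume A) (β : ℂ) :
    ∫⁻ v : ℝ, ENNReal.ofReal (‖((lam * v : ℝ) : ℂ) - β‖⁻¹ ^ s) ∂μ ≤
      ENNReal.ofReal (max 1 lam⁻¹ * (1 + 2 * D) / (1 - s)) := by
  have hs0 : 0 < s := by linarith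
  have hs2 : 0 < 1 - s := by linarith
  set c := β.re / lam with hc
  set L := max 1 lam⁻¹ with hL
  have hL1 : 1 ≤ L := le_max_left _ _
  have hL0 : 0 < L := by linarith
  set B : Set ℝ := {v : ℝ | |v - c| < 1} with hB
  have hBm : MeasurableSet B := measurableSet_lt (by fun_prop) (by fun_prop)
  have hle : μ ≤ ENNReal.ofReal D • volume := by
    rw [Measure.le_iff]
    intro A hA
    simpa using hμ A hA
  have hnull : ∀ᵐ v ∂μ, v ≠ c := by
    rw [ae_iff]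
    have h0 : {a : ℝ | ¬ a ≠ c} = {c} := by ext; simp
    rw [h0]
    have := hμ {c} (measurableSet_singleton c)
    simpa using this
  have hLs : lam⁻¹ ^ s ≤ L := rpow_le_max (inv_pos.2 hl) hs0 hs1
  have hpt : ∀ v : ℝ, v ≠ c → ‖((lam * v : ℝ) : ℂ) - β‖⁻¹ ^ s ≤ L * |v - c| ^ (-s) := by
    intro v hv
    have h0 : 0 < |v - c| := abs_pos.2 (sub_ne_zero.2 hv)
    have h1 : lam * |v - c| ≤ ‖((lam * v : ℝ) : ℂ) - β‖ := by
      have h3 := Complex.abs_re_le_norm (((lam * v : ℝ) : ℂ) - β)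
      have h2 : (((lam * v : ℝ) : ℂ) - β).re = lam * (v - c) := by
        rw [Complex.sub_re, Complex.ofReal_re, hc]
        field_simp
      rw [h2, abs_mul, abs_of_pos hl] at h3
      exact h3
    have h4 : ‖((lam * v : ℝ) : ℂ) - β‖⁻¹ ≤ (lam * |v - c|)⁻¹ :=
      inv_anti₀ (by positivity) h1
    calc ‖((lam * v : ℝ) : ℂ) - β‖⁻¹ ^ s ≤ (lam * |v - c|)⁻¹ ^ s :=
          Real.rpow_le_rpow (by positivity) h4 hs0.le
      _ = lam⁻¹ ^ s * |v - c| ^ (-s) := by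
          rw [mul_inv, Real.mul_rpow (by positivity) (by positivity), Real.inv_rpow (abs_nonneg _),
            Real.rpow_neg (abs_nonneg _)]
      _ ≤ L * |v - c| ^ (-s) := by gcongr
  have hin : ∫⁻ v in B, ENNReal.ofReal (‖((lam * v : ℝ) : ℂ) - β‖⁻¹ ^ s) ∂μ ≤
      ENNReal.ofReal L * (ENNReal.ofReal D * ENNReal.ofReal (2 / (1 - s))) := by
    calc ∫⁻ v in B, ENNReal.ofReal (‖((lam * v : ℝ) : ℂ) - β‖⁻¹ ^ s) ∂μ
        ≤ ∫⁻ v in B, ENNReal.ofReal L * ENNReal.ofReal (|v - c| ^ (-s)) ∂μ := by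
          refine lintegral_mono_ae (ae_restrict_of_ae ?_)
          filter_upwards [hnull] with v hv
          rw [← ENNReal.ofReal_mul hL0.le]
          exact ENNReal.ofReal_le_ofReal (hpt v hv)
      _ = ENNReal.ofReal L * ∫⁻ v in B, ENNReal.ofReal (|v - c| ^ (-s)) ∂μ := by
          rw [lintegral_const_mul _ (by fun_prop)]
      _ ≤ ENNReal.ofReal L * ∫⁻ v in B, ENNReal.ofReal (|v - c| ^ (-s))
            ∂(ENNReal.ofReal D • volume) := by
          gcongr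
      _ = ENNReal.ofReal L * (ENNReal.ofReal D * ∫⁻ v in B, ENNReal.ofReal (|v - c| ^ (-s))) := by
          rw [Measure.restrict_smul, lintegral_smul_measure, smul_eq_mul]
      _ ≤ _ := by
          gcongr
          have h := Pool.Agent.H354.ME.lintb s hs1 1 one_pos c
          rw [Real.one_rpow] at h
          refine h.trans (ENNReal.ofReal_le_ofReal (le_of_eq ?_))
          ring
  have hout : ∫⁻ v in Bᶜ, ENNReal.ofReal (‖((lam * v : ℝ) : ℂ) - β‖⁻¹ ^ s) ∂μ ≤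
      ENNReal.ofReal L := by
    calc ∫⁻ v in Bᶜ, ENNReal.ofReal (‖((lam * v : ℝ) : ℂ) - β‖⁻¹ ^ s) ∂μ
        ≤ ∫⁻ _v in Bᶜ, ENNReal.ofReal L ∂μ := by
          refine setLIntegral_mono' hBm.compl ?_
          intro v hv
          refine ENNReal.ofReal_le_ofReal ?_
          have h1 : 1 ≤ |v - c| := not_lt.1 hv
          have hvc : v ≠ c := by
            rintro rfl
            rw [sub_self, abs_zero] at h1
            linarith
          refine (hpt v hvc).trans ?_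
          have h2 : |v - c| ^ (-s) ≤ 1 := Real.rpow_le_one_of_one_le_of_nonpos h1 (by linarith)
          calc L * |v - c| ^ (-s) ≤ L * 1 := by gcongr
            _ = L := mul_one _
      _ = ENNReal.ofReal L * μ Bᶜ := by rw [setLIntegral_const]
      _ ≤ ENNReal.ofReal L * 1 := by
          gcongr
          exact prob_le_one
      _ = ENNReal.ofReal L := mul_one _
  rw [← lintegral_add_compl _ hBm]
  refine (add_le_add hin hout).trans ?_
  rw [← ENNReal.ofReal_mul hD.le, ← ENNReal.ofReal_mul hL0.le,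
    ← ENNReal.ofReal_add (by positivity) hL0.le]
  refine ENNReal.ofReal_le_ofReal ?_
  have h5 : L ≤ L / (1 - s) := by
    rw [le_div_iff₀ hs2]
    nlinarith
  calc L * (D * (2 / (1 - s))) + L ≤ L * (D * (2 / (1 - s))) + L / (1 - s) := by gcongr
    _ = L * (1 + 2 * D) / (1 - s) := by ring

/-- the three cases -/
lemma three (n A B : ℂ) (s : ℝ) (hs0 : 0 < s) (hn : n ≠ 0) (P : Prop) [Decidable P]
    (hP : P ↔ ‖A‖ < ‖n‖ / 2) :
    ENNReal.ofReal ((‖n‖ / ‖A * B - n ^ 2‖) ^ s) ≤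
      ENNReal.ofReal ((2 * ‖A - n ^ 2 / B‖⁻¹) ^ s) + ENNReal.ofReal ((2 * ‖B - n ^ 2 / A‖⁻¹) ^ s) +
        if P then ENNReal.ofReal ((4 / (3 * ‖n‖)) ^ s) else 0 := by
  have hn0 : 0 < ‖n‖ := norm_pos_iff.2 hn
  have hcase : ∀ A B : ℂ, ‖n‖ / 2 ≤ ‖B‖ →
      (‖n‖ / ‖A * B - n ^ 2‖) ^ s ≤ (2 * ‖A - n ^ 2 / B‖⁻¹) ^ s := by
    intro A B hB
    have hB0 : 0 < ‖B‖ := by linarith
    have hBne : B ≠ 0 := norm_pos_iff.1 hB0
    refine Real.rpow_le_rpow (by positivity) ?_ hs0.le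
    have h1 : A * B - n ^ 2 = B * (A - n ^ 2 / B) := by
      field_simp
    rw [h1, norm_mul, ← div_div, div_eq_mul_inv (‖n‖ / ‖B‖)]
    have h2 : ‖n‖ / ‖B‖ ≤ 2 := by
      rw [div_le_iff₀ hB0]
      linarith
    gcongr
  by_cases h1 : ‖n‖ / 2 ≤ ‖B‖
  · refine (ENNReal.ofReal_le_ofReal (hcase A B h1)).trans ?_
    rw [add_assoc]
    exact le_self_add
  · by_cases h2 : ‖n‖ / 2 ≤ ‖A‖
    · have h3 := hcase B A h2
      rw [mul_comm B A] at h3
      refine (ENNReal.ofReal_le_ofReal h3).trans ?_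
      rw [add_assoc]
      exact le_self_add.trans le_add_self
    · have hp : P := hP.2 (not_le.1 h2)
      rw [if_pos hp]
      refine le_trans (ENNReal.ofReal_le_ofReal ?_) le_add_self
      refine Real.rpow_le_rpow (by positivity) ?_ hs0.le
      push Not at h1 h2
      have h4 : 3 / 4 * ‖n‖ ^ 2 ≤ ‖A * B - n ^ 2‖ := by
        have h5 : ‖n ^ 2‖ - ‖A * B‖ ≤ ‖A * B - n ^ 2‖ := by
          rw [norm_sub_rev]
          exact norm_sub_norm_le _ _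
        have h6 : ‖A * B‖ ≤ (‖n‖ / 2) * (‖n‖ / 2) := by
          rw [norm_mul]
          gcongr
        rw [norm_pow] at h5
        nlinarith
      calc ‖n‖ / ‖A * B - n ^ 2‖ ≤ ‖n‖ / (3 / 4 * ‖n‖ ^ 2) := by gcongr
        _ = 4 / (3 * ‖n‖) := by
            field_simp

lemma part3 (D lam s : ℝ) (hD : 0 < D) (hl : 0 < lam) (hs0 : 0 < s) (hs1 : s < 1)
    (μ : Measure ℝ) [IsProbabilityMeasure μ]
    (hμ : ∀ A : Set ℝ, MeasurableSet A → μ A ≤ ENNReal.ofReal D * volume A) (a n : ℂ)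
    (hn : n ≠ 0) :
    ENNReal.ofReal ((4 / (3 * ‖n‖)) ^ s) * μ {v : ℝ | ‖((lam * v : ℝ) : ℂ) + a‖ < ‖n‖ / 2} ≤
      ENNReal.ofReal (1 + 4 * D / lam) := by
  have hn0 : 0 < ‖n‖ := norm_pos_iff.2 hn
  have h43 : (4 * D / (3 * lam)) ^ s ≤ 1 + 4 * D / lam := by
    refine (rpow_le_max (by positivity) hs0 hs1).trans ?_
    have h1 : 4 * D / (3 * lam) ≤ 4 * D / lam := by
      gcongr
      linarith
    have h2 : 0 < 4 * D / lam := by positivity
    exact max_le (by linarith) (by linarith)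
  rcases le_total 1 (D * ‖n‖ / lam) with h | h
  · calc ENNReal.ofReal ((4 / (3 * ‖n‖)) ^ s) *
          μ {v : ℝ | ‖((lam * v : ℝ) : ℂ) + a‖ < ‖n‖ / 2}
        ≤ ENNReal.ofReal ((4 / (3 * ‖n‖)) ^ s) * 1 := by
          gcongr
          exact prob_le_one
      _ = ENNReal.ofReal ((4 / (3 * ‖n‖)) ^ s) := mul_one _
      _ ≤ ENNReal.ofReal (1 + 4 * D / lam) := by
          refine ENNReal.ofReal_le_ofReal (le_trans ?_ h43)
          refine Real.rpow_le_rpow (by positivity) ?_ hs0.le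
          rw [le_div_iff₀ hl, one_mul] at h
          rw [div_le_div_iff₀ (by positivity) (by positivity)]
          nlinarith
  · have hset : {v : ℝ | ‖((lam * v : ℝ) : ℂ) + a‖ < ‖n‖ / 2} ⊆
        Metric.ball (-(a.re / lam)) (‖n‖ / (2 * lam)) := by
      intro v hv
      have h3 := Complex.abs_re_le_norm (((lam * v : ℝ) : ℂ) + a)
      have h2 : (((lam * v : ℝ) : ℂ) + a).re = lam * (v - -(a.re / lam)) := by
        rw [Complex.add_re, Complex.ofReal_re]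
        field_simp
        ring
      rw [h2, abs_mul, abs_of_pos hl] at h3
      rw [Metric.mem_ball, Real.dist_eq, lt_div_iff₀ (by positivity)]
      have hv' : ‖((lam * v : ℝ) : ℂ) + a‖ < ‖n‖ / 2 := hv
      linarith
    have hmu : μ {v : ℝ | ‖((lam * v : ℝ) : ℂ) + a‖ < ‖n‖ / 2} ≤
        ENNReal.ofReal (D * ‖n‖ / lam) := by
      refine (measure_mono hset).trans ((hμ _ Metric.isOpen_ball.measurableSet).trans ?_)
      rw [Real.volume_ball, ← ENNReal.ofReal_mul hD.le]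
      refine ENNReal.ofReal_le_ofReal (le_of_eq ?_)
      field_simp
    calc ENNReal.ofReal ((4 / (3 * ‖n‖)) ^ s) *
          μ {v : ℝ | ‖((lam * v : ℝ) : ℂ) + a‖ < ‖n‖ / 2}
        ≤ ENNReal.ofReal ((4 / (3 * ‖n‖)) ^ s) * ENNReal.ofReal (D * ‖n‖ / lam) := by
          gcongr
      _ = ENNReal.ofReal ((4 / (3 * ‖n‖)) ^ s * (D * ‖n‖ / lam)) := by
          rw [ENNReal.ofReal_mul (by positivity)]
      _ ≤ ENNReal.ofReal (1 + 4 * D / lam) := by
          refine ENNReal.ofReal_le_ofReal (le_trans ?_ h43)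
          have h5 : D * ‖n‖ / lam ≤ (D * ‖n‖ / lam) ^ s := by
            calc D * ‖n‖ / lam = (D * ‖n‖ / lam) ^ (1 : ℝ) := (Real.rpow_one _).symm
              _ ≤ (D * ‖n‖ / lam) ^ s :=
                Real.rpow_le_rpow_of_exponent_ge (by positivity) h hs1.le
          calc (4 / (3 * ‖n‖)) ^ s * (D * ‖n‖ / lam)
              ≤ (4 / (3 * ‖n‖)) ^ s * (D * ‖n‖ / lam) ^ s := by gcongr
            _ = (4 / (3 * ‖n‖) * (D * ‖n‖ / lam)) ^ s := by
                rw [Real.mul_rpow (by positivity) (by positivity)]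
            _ = (4 * D / (3 * lam)) ^ s := by
                congr 1
                field_simp

lemma two_mul_rpow {x s : ℝ} (hx : 0 ≤ x) (hs0 : 0 < s) (hs1 : s < 1) :
    (2 * x) ^ s ≤ 2 * x ^ s := by
  rw [Real.mul_rpow (by norm_num) hx]
  have h : (2 : ℝ) ^ s ≤ 2 := by
    calc (2 : ℝ) ^ s ≤ 2 ^ (1 : ℝ) := Real.rpow_le_rpow_of_exponent_le (by norm_num) hs1.le
      _ = 2 := Real.rpow_one _
  gcongr

lemma one_var2 (D lam s : ℝ) (hD : 0 < D) (hl : 0 < lam) (hs : 1 / 2 ≤ s) (hs1 : s < 1)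
    (μ : Measure ℝ) [IsProbabilityMeasure μ]
    (hμ : ∀ A : Set ℝ, MeasurableSet A → μ A ≤ ENNReal.ofReal D * volume A) (β : ℂ) :
    ∫⁻ v : ℝ, ENNReal.ofReal ((2 * ‖((lam * v : ℝ) : ℂ) - β‖⁻¹) ^ s) ∂μ ≤
      2 * ENNReal.ofReal (max 1 lam⁻¹ * (1 + 2 * D) / (1 - s)) := by
  have hs0 : 0 < s := by linarith
  calc ∫⁻ v : ℝ, ENNReal.ofReal ((2 * ‖((lam * v : ℝ) : ℂ) - β‖⁻¹) ^ s) ∂μ
      ≤ ∫⁻ v : ℝ, 2 * ENNReal.ofReal (‖((lam * v : ℝ) : ℂ) - β‖⁻¹ ^ s) ∂μ := by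
        refine lintegral_mono fun v => ?_
        have h : (2 : ℝ≥0∞) = ENNReal.ofReal 2 := by simp
        rw [h, ← ENNReal.ofReal_mul (by norm_num)]
        exact ENNReal.ofReal_le_ofReal (two_mul_rpow (by positivity) hs0 hs1)
    _ = 2 * ∫⁻ v : ℝ, ENNReal.ofReal (‖((lam * v : ℝ) : ℂ) - β‖⁻¹ ^ s) ∂μ := by
        rw [lintegral_const_mul _ (by fun_prop)]
    _ ≤ _ := by
        gcongr
        exact one_var D lam s hD hl hs hs1 μ hμ β

theorem two_var (D lam s : ℝ) (hD : 0 < D) (hl : 0 < lam) (hs : 1 / 2 ≤ s) (hs1 : s < 1)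
    (μ : Measure ℝ) [IsProbabilityMeasure μ]
    (hμ : ∀ A : Set ℝ, MeasurableSet A → μ A ≤ ENNReal.ofReal D * volume A) (a b n : ℂ) :
    ∫⁻ v : ℝ, ∫⁻ w : ℝ, ENNReal.ofReal
        ((‖n‖ / ‖(((lam * v : ℝ) : ℂ) + a) * (((lam * w : ℝ) : ℂ) + b) - n ^ 2‖) ^ s) ∂μ ∂μ ≤
      4 * ENNReal.ofReal (max 1 lam⁻¹ * (1 + 2 * D) / (1 - s)) +
        ENNReal.ofReal (1 + 4 * D / lam) := by
  classical
  have hs0 : 0 < s := by linarith
  by_cases hn : n = 0
  · subst hn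
    have h0 : ∀ v w : ℝ, ENNReal.ofReal
        ((‖(0 : ℂ)‖ / ‖(((lam * v : ℝ) : ℂ) + a) * (((lam * w : ℝ) : ℂ) + b) - 0 ^ 2‖) ^ s) = 0 := by
      intro v w
      rw [norm_zero, zero_div, Real.zero_rpow hs0.ne', ENNReal.ofReal_zero]
    simp only [h0, lintegral_zero]
    exact zero_le
  · obtain ⟨T1, hT1⟩ : ∃ T : ℝ × ℝ → ℝ≥0∞, T = fun p => ENNReal.ofReal
      ((2 * ‖((lam * p.1 : ℝ) : ℂ) - (n ^ 2 / (((lam * p.2 : ℝ) : ℂ) + b) - a)‖⁻¹) ^ s) := ⟨_, rfl⟩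
    obtain ⟨T2, hT2⟩ : ∃ T : ℝ × ℝ → ℝ≥0∞, T = fun p => ENNReal.ofReal
      ((2 * ‖((lam * p.2 : ℝ) : ℂ) - (n ^ 2 / (((lam * p.1 : ℝ) : ℂ) + a) - b)‖⁻¹) ^ s) := ⟨_, rfl⟩
    obtain ⟨S, hS⟩ : ∃ S : Set ℝ, S = {v : ℝ | ‖((lam * v : ℝ) : ℂ) + a‖ < ‖n‖ / 2} := ⟨_, rfl⟩
    have hSm : MeasurableSet S := by
      rw [hS]
      exact measurableSet_lt (by fun_prop) (by fun_prop)
    obtain ⟨c3, hc3⟩ : ∃ c : ℝ≥0∞, c = ENNReal.ofReal ((4 / (3 * ‖n‖)) ^ s) := ⟨_, rfl⟩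
    obtain ⟨T3, hT3⟩ : ∃ T : ℝ × ℝ → ℝ≥0∞, T = fun p => S.indicator (fun _ => c3) p.1 := ⟨_, rfl⟩
    have hm1 : Measurable T1 := by
      rw [hT1]
      fun_prop
    have hm2 : Measurable T2 := by
      rw [hT2]
      fun_prop
    have hm3 : Measurable T3 := by
      rw [hT3]
      exact (measurable_const.indicator hSm).comp measurable_fst
    obtain ⟨C1, hC1⟩ : ∃ c : ℝ≥0∞, c = ENNReal.ofReal (max 1 lam⁻¹ * (1 + 2 * D) / (1 - s)) :=
      ⟨_, rfl⟩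
    have hb1 : ∀ w : ℝ, ∫⁻ v, T1 (v, w) ∂μ ≤ 2 * C1 := by
      intro w
      have h := one_var2 D lam s hD hl hs hs1 μ hμ (n ^ 2 / (((lam * w : ℝ) : ℂ) + b) - a)
      rw [hT1, hC1]
      exact h
    have hb2 : ∀ v : ℝ, ∫⁻ w, T2 (v, w) ∂μ ≤ 2 * C1 := by
      intro v
      have h := one_var2 D lam s hD hl hs hs1 μ hμ (n ^ 2 / (((lam * v : ℝ) : ℂ) + a) - b)
      rw [hT2, hC1]
      exact h
    have hb3 : ∫⁻ v, ∫⁻ w, T3 (v, w) ∂μ ∂μ ≤ ENNReal.ofReal (1 + 4 * D / lam) := by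
      have h4 : ∀ v : ℝ, ∫⁻ w, T3 (v, w) ∂μ = S.indicator (fun _ => c3) v := by
        intro v
        rw [hT3]
        change ∫⁻ _w : ℝ, S.indicator (fun _ => c3) v ∂μ = _
        rw [lintegral_const, measure_univ, mul_one]
      rw [lintegral_congr h4, lintegral_indicator_const hSm, hc3, hS]
      exact part3 D lam s hD hl hs0 hs1 μ hμ a n hn
    have hpt : ∀ v w : ℝ, ENNReal.ofReal
        ((‖n‖ / ‖(((lam * v : ℝ) : ℂ) + a) * (((lam * w : ℝ) : ℂ) + b) - n ^ 2‖) ^ s) ≤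
        T1 (v, w) + T2 (v, w) + T3 (v, w) := by
      intro v w
      have hvS : v ∈ S ↔ ‖((lam * v : ℝ) : ℂ) + a‖ < ‖n‖ / 2 := by
        rw [hS]
        exact Iff.rfl
      have h := three n (((lam * v : ℝ) : ℂ) + a) (((lam * w : ℝ) : ℂ) + b) s hs0 hn (v ∈ S) hvS
      have e1 : ((lam * v : ℝ) : ℂ) + a - n ^ 2 / (((lam * w : ℝ) : ℂ) + b) =
        ((lam * v : ℝ) : ℂ) - (n ^ 2 / (((lam * w : ℝ) : ℂ) + b) - a) := by ring
      have e2 : ((lam * w : ℝ) : ℂ) + b - n ^ 2 / (((lam * v : ℝ) : ℂ) + a) =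
        ((lam * w : ℝ) : ℂ) - (n ^ 2 / (((lam * v : ℝ) : ℂ) + a) - b) := by ring
      rw [e1, e2, ← hc3] at h
      rw [hT1, hT2, hT3]
      change _ ≤ _ + _ + S.indicator (fun _ => c3) v
      rw [Set.indicator_apply]
      exact h
    have hsum : ∫⁻ v : ℝ, ∫⁻ w : ℝ, (T1 (v, w) + T2 (v, w) + T3 (v, w)) ∂μ ∂μ =
        ∫⁻ w, ∫⁻ v, T1 (v, w) ∂μ ∂μ + ∫⁻ v, ∫⁻ w, T2 (v, w) ∂μ ∂μ +
          ∫⁻ v, ∫⁻ w, T3 (v, w) ∂μ ∂μ := by
      have hmm : Measurable fun p : ℝ × ℝ => T1 p + T2 p + T3 p := (hm1.add hm2).add hm3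
      rw [← lintegral_prod (fun p => T1 p + T2 p + T3 p) hmm.aemeasurable,
        lintegral_add_right _ hm3, lintegral_add_left hm1,
        ← lintegral_prod_symm _ hm1.aemeasurable, ← lintegral_prod _ hm2.aemeasurable,
        ← lintegral_prod _ hm3.aemeasurable]
    have hc : ∀ c : ℝ≥0∞, ∫⁻ _v : ℝ, c ∂μ = c := by
      intro c
      rw [lintegral_const, measure_univ, mul_one]
    refine (lintegral_mono fun v => lintegral_mono fun w => hpt v w).trans ?_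
    rw [hsum]
    refine (add_le_add (add_le_add ((lintegral_mono hb1).trans (hc _).le)
      ((lintegral_mono hb2).trans (hc _).le)) hb3).trans (le_of_eq ?_)
    rw [← hC1]
    congr 1
    rw [← add_mul]
    norm_num

theorem aprA_core : ∀ D lam : ℝ, 0 < D → 0 < lam → ∃ C : ℝ, 0 < C ∧ ∀ s : ℝ, 1 / 2 ≤ s → s < 1 →
    ∀ (μ : Measure ℝ) [IsProbabilityMeasure μ],
      (∀ A : Set ℝ, MeasurableSet A → μ A ≤ ENNReal.ofReal D * volume A) →
      (∀ β : ℂ, ∫⁻ v : ℝ, ENNReal.ofReal (‖((lam * v : ℝ) : ℂ) - β‖⁻¹ ^ s) ∂μ ≤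
        ENNReal.ofReal (C / (1 - s))) ∧
      ∀ a b n : ℂ, ∫⁻ v : ℝ, ∫⁻ w : ℝ, ENNReal.ofReal
        ((‖n‖ / ‖(((lam * v : ℝ) : ℂ) + a) * (((lam * w : ℝ) : ℂ) + b) - n ^ 2‖) ^ s) ∂μ ∂μ ≤
        ENNReal.ofReal (C / (1 - s)) := by
  intro D lam hD hl
  have hL1 : 1 ≤ max 1 lam⁻¹ := le_max_left _ _
  have hC1 : 0 < max 1 lam⁻¹ * (1 + 2 * D) := by positivity
  have hC2 : 0 < 4 * D / lam := by positivity
  refine ⟨4 * (max 1 lam⁻¹ * (1 + 2 * D)) + (1 + 4 * D / lam), by positivity, ?_⟩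
  intro s hs hs1 μ _ hμ
  have hs2 : 0 < 1 - s := by linarith
  refine ⟨fun β => ?_, fun a b n => ?_⟩
  · refine (one_var D lam s hD hl hs hs1 μ hμ β).trans (ENNReal.ofReal_le_ofReal ?_)
    gcongr
    linarith
  · refine (two_var D lam s hD hl hs hs1 μ hμ a b n).trans ?_
    have h4 : (4 : ℝ≥0∞) = ENNReal.ofReal 4 := by simp
    rw [h4, ← ENNReal.ofReal_mul (by norm_num), ← ENNReal.ofReal_add (by positivity) (by positivity)]
    refine ENNReal.ofReal_le_ofReal ?_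
    have h5 : 1 + 4 * D / lam ≤ (1 + 4 * D / lam) / (1 - s) := by
      rw [le_div_iff₀ hs2]
      have : 0 < 1 + 4 * D / lam := by positivity
      nlinarith
    calc 4 * (max 1 lam⁻¹ * (1 + 2 * D) / (1 - s)) + (1 + 4 * D / lam)
        ≤ 4 * (max 1 lam⁻¹ * (1 + 2 * D) / (1 - s)) + (1 + 4 * D / lam) / (1 - s) := by gcongr
      _ = (4 * (max 1 lam⁻¹ * (1 + 2 * D)) + (1 + 4 * D / lam)) / (1 - s) := by ring

end Pool.Agent.H946.UE
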