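import Pool.Agent.H121.UE.Iface
import Pool.Agent.H946.UE.AprACore

/-! Project UE of helper121, S_aprA (helper946). -/

set_option autoImplicit false

namespace Pool.Agent.H946.UE

theorem aprA : Pool.Agent.H121.UE.S_aprA := aprA_core

end Pool.Agent.H946.UE
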